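import Pool.Agent.Q258.SimpLat.Meas

set_option autoImplicit false

/-!
# Volume measures of polytopes in the lattice of simplices
-/

namespace Pool.Agent.Results.MP_8bc176_co.AlwaysIntegral

open Finset MeasureTheory

/-- Euclidean space of dimension `d`. -/
abbrev E (d : ℕ) := EuclideanSpace ℝ (Fin d)

variable {d : ℕ}

/-- `D` is the vertex set of a `d`-simplex: `d + 1` affinely independent points. -/
def IsSimplexSet (D : Finset (E d)) : Prop :=
  AffineIndependent ℝ (fun x : D => (x : E d)) ∧ D.card = d + 1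

/-- The standard measure of `Ω`: the signed measure whose density is the indicator function of
`Ω`. -/
noncomputable def stdMeasure (Ω : Set (E d)) : SignedMeasure (E d) :=
  (volume : Measure (E d)).withDensityᵥ (Ω.indicator (fun _ => (1 : ℝ)))

/-- The standard measures of the `d`-simplices with all vertices in `S`. -/
def simplexMeasures (S : Set (E d)) : Set (SignedMeasure (E d)) :=
  {μ | ∃ D : Finset (E d), (D : Set (E d)) ⊆ S ∧ IsSimplexSet D ∧
    μ = stdMeasure (convexHull ℝ (D : Set (E d)))}

/-- The real vector space of signed measures spanned by the measures of the simplices. -/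
noncomputable def MDelta (S : Set (E d)) : Submodule ℝ (SignedMeasure (E d)) :=
  Submodule.span ℝ (simplexMeasures S)

/-- The lattice: all integer combinations of the measures of the simplices. -/
noncomputable def Lat (S : Set (E d)) : AddSubgroup (SignedMeasure (E d)) :=
  AddSubgroup.closure (simplexMeasures S)

/-- A generalized polytope: a finite union of convex `d`-dimensional polytopes. -/
def IsGenPolytope (P : Set (E d)) : Prop :=
  ∃ 𝒬 : Finset (Finset (E d)), (∀ Q ∈ 𝒬, affineSpan ℝ (Q : Set (E d)) = ⊤) ∧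
    P = ⋃ Q ∈ 𝒬, convexHull ℝ (Q : Set (E d))

/-- A dissection of `P`: finitely many `d`-simplices with disjoint interiors such that the closure
of the union of the interiors is `P`. -/
def IsDissection (P : Set (E d)) (𝒯 : Finset (Finset (E d))) : Prop :=
  (∀ T ∈ 𝒯, IsSimplexSet T) ∧
  (∀ T ∈ 𝒯, ∀ T' ∈ 𝒯, T ≠ T' → Disjoint (interior (convexHull ℝ (T : Set (E d))))
    (interior (convexHull ℝ (T' : Set (E d))))) ∧
  closure (⋃ T ∈ 𝒯, interior (convexHull ℝ (T : Set (E d)))) = P

/-- The vertices of `P`: the points which are a vertex of some simplex in every dissection. -/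
def vertices (P : Set (E d)) : Set (E d) :=
  {v | ∀ 𝒯, IsDissection P 𝒯 → ∃ T ∈ 𝒯, v ∈ T}

theorem isCompact_of_genPolytope {P : Set (E d)} (hP : IsGenPolytope P) : IsCompact P := by
  obtain ⟨𝒬, _, rfl⟩ := hP
  exact 𝒬.isCompact_biUnion fun Q _ => Q.finite_toSet.isCompact_convexHull ℝ

theorem int_smul_mem {H : AddSubgroup (SignedMeasure (E d))} {μ : SignedMeasure (E d)}
    (h : μ ∈ H) (z : ℤ) : ((z : ℝ) • μ) ∈ H := by
  have e : ((z : ℝ) • μ) = z • μ := by
    induction z with
    | zero =>
      rw [Int.cast_zero, zero_zsmul]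
      ext i _
      simp
    | succ n ih =>
      push_cast at ih ⊢
      rw [add_zsmul, one_zsmul, ← ih]
      ext i _
      simp [add_mul]
    | pred n ih =>
      push_cast at ih ⊢
      rw [sub_zsmul, one_zsmul, ← ih]
      ext i _
      simp [sub_mul]
      ring
  rw [e]
  exact H.zsmul_mem h z

open Q258.SimpLat in
/-- The coordinates of the measure of a compact set are integers. -/
theorem coords {P : Set (E d)} (hP : IsCompact P) {S : Finset (E d)}
    {B : Finset (Finset (E d))} (hB1 : ∀ D ∈ B, D ⊆ S ∧ Q258.SimpLat.IsSimplexSet D)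
    (hB2 : ∀ c : Finset (E d) → ℝ,
      (∀ᵐ x ∂(volume : Measure (E d)), ∃ z : ℤ, ∑ D ∈ B, c D * ind D x = z) →
      ∀ D ∈ B, ∃ z : ℤ, c D = z)
    {c : Finset (E d) → ℝ}
    (hc : Q258.SimpLat.stdMeasure P =
      ∑ D ∈ B, c D • Q258.SimpLat.stdMeasure (convexHull ℝ (D : Set (E d)))) :
    ∀ D ∈ B, ∃ z : ℤ, c D = z := by
  apply hB2
  rw [← wd_sum] at hc
  have h1 := (integrable_indicator hP).ae_eq_of_withDensityᵥ_eq (integrable_sum_ind B c) hc
  filter_upwards [h1] with x hx
  rw [← hx]
  by_cases hxP : x ∈ P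
  · exact ⟨1, by rw [Set.indicator_of_mem hxP]; simp⟩
  · exact ⟨0, by rw [Set.indicator_of_notMem hxP]; simp⟩

open Q258.SimpLat in
/-- The measure of a simplex is an integer combination of the basis. -/
theorem mem_closure_basis {S : Finset (E d)} {B : Finset (Finset (E d))}
    (hB3 : ∀ D ⊆ S, Q258.SimpLat.IsSimplexSet D → ∃ m : Finset (E d) → ℤ,
      ∀ᵐ x ∂(volume : Measure (E d)), ind D x = ∑ D' ∈ B, (m D' : ℝ) * ind D' x)
    {D : Finset (E d)} (hDS : D ⊆ S) (hD : Q258.SimpLat.IsSimplexSet D) :
    ∃ m : Finset (E d) → ℤ, Q258.SimpLat.stdMeasure (convexHull ℝ (D : Set (E d))) =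
      ∑ D' ∈ B, (m D' : ℝ) • Q258.SimpLat.stdMeasure (convexHull ℝ (D' : Set (E d))) := by
  obtain ⟨m, hm⟩ := hB3 D hDS hD
  refine ⟨m, ?_⟩
  rw [← wd_sum, stdMeasure_conv]
  exact WithDensityᵥEq.congr_ae hm

open Q258.SimpLat in
/-- For every finite set `S` of points there is a set `B` of `d`-simplices with vertices in `S`
whose measures are a basis of `MDelta S` and generate the lattice `Lat S`, such that the measure
of each generalized polytope which is in `MDelta S` has integral coordinates. -/
theorem basis_form (S : Finset (E d)) : ∃ B : Finset (Finset (E d)),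
    (∀ D ∈ B, D ⊆ S ∧ IsSimplexSet D) ∧
    LinearIndependent ℝ (fun D : B => stdMeasure (convexHull ℝ ((D : Finset (E d)) : Set (E d)))) ∧
    Submodule.span ℝ (Set.range
      (fun D : B => stdMeasure (convexHull ℝ ((D : Finset (E d)) : Set (E d))))) = MDelta S ∧
    AddSubgroup.closure (Set.range
      (fun D : B => stdMeasure (convexHull ℝ ((D : Finset (E d)) : Set (E d))))) = Lat S ∧
    ∀ P : Set (E d), IsCompact P → ∀ c : Finset (E d) → ℝ,
      stdMeasure P = ∑ D ∈ B, c D • stdMeasure (convexHull ℝ (D : Set (E d))) →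
        ∀ D ∈ B, ∃ z : ℤ, c D = z := by
  classical
  obtain ⟨B, hB1, hB2, hB3⟩ := exists_basis S
  have hle : Set.range (fun D : B => stdMeasure (convexHull ℝ ((D : Finset (E d)) : Set (E d)))) ⊆
      simplexMeasures (S : Set (E d)) := by
    rintro _ ⟨D, rfl⟩
    exact ⟨D, by exact_mod_cast (hB1 D D.2).1, (hB1 D D.2).2, rfl⟩
  refine ⟨B, hB1, ?_, ?_, ?_, ?_⟩
  · rw [Fintype.linearIndependent_iff]
    intro g hg i
    set c : Finset (E d) → ℝ := fun D => if h : D ∈ B then g ⟨D, h⟩ else 0 with hcdef
    have hsum : ∀ t : ℝ, ∑ D ∈ B, (t * c D) • Q258.SimpLat.stdMeasure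
        (convexHull ℝ (D : Set (E d))) = 0 := by
      intro t
      have h1 : ∑ D ∈ B, (t * c D) • Q258.SimpLat.stdMeasure (convexHull ℝ (D : Set (E d))) =
          t • ∑ D : B, g D • stdMeasure (convexHull ℝ ((D : Finset (E d)) : Set (E d))) := by
        rw [Finset.smul_sum, ← Finset.sum_coe_sort]
        apply Finset.sum_congr rfl
        intro D _
        rw [hcdef, mul_smul]
        beta_reduce
        rw [dif_pos D.2]
        rfl
      rw [h1, hg, smul_zero]
    have hint : ∀ t : ℝ, ∃ z : ℤ, t * c i = z := by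
      intro t
      have h2 : Q258.SimpLat.stdMeasure (∅ : Set (E d)) =
          ∑ D ∈ B, (t * c D) • Q258.SimpLat.stdMeasure (convexHull ℝ (D : Set (E d))) := by
        rw [hsum t]
        unfold Q258.SimpLat.stdMeasure
        rw [Set.indicator_empty]
        exact withDensityᵥ_zero
      exact coords isCompact_empty hB1 hB2 (c := fun D => t * c D) h2 i i.2
    have hci : c i = g i := by
      rw [hcdef]
      beta_reduce
      rw [dif_pos i.2]
    by_contra hne
    obtain ⟨z, hz⟩ := hint ((2 * c i)⁻¹)
    rw [hci] at hz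
    have h3 : (2 * g i)⁻¹ * g i = 1 / 2 := by
      field_simp
    rw [h3] at hz
    have h4 : (1 : ℝ) = ((2 * z : ℤ) : ℝ) := by
      push_cast
      linarith
    have h5 : (1 : ℤ) = 2 * z := by exact_mod_cast h4
    omega
  · apply le_antisymm
    · exact Submodule.span_mono hle
    · unfold MDelta
      rw [Submodule.span_le]
      rintro _ ⟨D, hDS, hD, rfl⟩
      obtain ⟨m, hm⟩ := mem_closure_basis hB3 (D := D) (by exact_mod_cast hDS) hD
      have hm' : stdMeasure (convexHull ℝ (D : Set (E d))) = ∑ D' ∈ B, (m D' : ℝ) •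
          Q258.SimpLat.stdMeasure (convexHull ℝ (D' : Set (E d))) := hm
      rw [SetLike.mem_coe, hm']
      apply Submodule.sum_mem
      intro D' hD'
      exact Submodule.smul_mem _ _ (Submodule.subset_span ⟨⟨D', hD'⟩, rfl⟩)
  · apply le_antisymm
    · exact AddSubgroup.closure_mono hle
    · unfold Lat
      rw [AddSubgroup.closure_le]
      rintro _ ⟨D, hDS, hD, rfl⟩
      obtain ⟨m, hm⟩ := mem_closure_basis hB3 (D := D) (by exact_mod_cast hDS) hD
      have hm' : stdMeasure (convexHull ℝ (D : Set (E d))) = ∑ D' ∈ B, (m D' : ℝ) •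
          Q258.SimpLat.stdMeasure (convexHull ℝ (D' : Set (E d))) := hm
      rw [SetLike.mem_coe, hm']
      apply AddSubgroup.sum_mem
      intro D' hD'
      refine int_smul_mem ?_ _
      exact AddSubgroup.subset_closure ⟨⟨D', hD'⟩, rfl⟩
  · intro P hP c hc
    exact coords hP hB1 hB2 hc

/-- A measure in the span of the simplices with vertices in a set `S` is in the span for some finite
subset. -/
theorem mem_span_finite {S : Set (E d)} {μ : SignedMeasure (E d)} (h : μ ∈ MDelta S) :
    ∃ T : Finset (E d), (T : Set (E d)) ⊆ S ∧ μ ∈ MDelta (T : Set (E d)) := by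
  classical
  unfold MDelta at h
  induction h using Submodule.span_induction with
  | mem μ hμ =>
    obtain ⟨D, hDS, hD, rfl⟩ := hμ
    exact ⟨D, hDS, Submodule.subset_span ⟨D, subset_rfl, hD, rfl⟩⟩
  | zero => exact ⟨∅, by simp, Submodule.zero_mem _⟩
  | add x y _ _ ihx ihy =>
    obtain ⟨T, hT, hx⟩ := ihx
    obtain ⟨T', hT', hy⟩ := ihy
    have hmono : ∀ A B : Finset (E d), A ⊆ B → MDelta (A : Set (E d)) ≤ MDelta (B : Set (E d)) := by
      intro A B hAB
      apply Submodule.span_mono
      rintro _ ⟨D, hDS, hD, rfl⟩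
      exact ⟨D, hDS.trans (by exact_mod_cast hAB), hD, rfl⟩
    refine ⟨T ∪ T', ?_, Submodule.add_mem _ (hmono _ _ subset_union_left hx)
      (hmono _ _ subset_union_right hy)⟩
    rw [coe_union]
    exact Set.union_subset hT hT'
  | smul a x _ ih =>
    obtain ⟨T, hT, hx⟩ := ih
    exact ⟨T, hT, Submodule.smul_mem _ a hx⟩

theorem mem_Lat_of_mem_MDelta {S : Set (E d)} {P : Set (E d)} (hP : IsCompact P)
    (h : stdMeasure P ∈ MDelta S) : stdMeasure P ∈ Lat S := by
  classical
  obtain ⟨T, hT, hμ⟩ := mem_span_finite h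
  obtain ⟨B, hB1, _, hB3, hB4, hB5⟩ := basis_form T
  have hμ' := hμ
  rw [← hB3, Submodule.mem_span_range_iff_exists_fun] at hμ'
  obtain ⟨g, hg⟩ := hμ'
  set c : Finset (E d) → ℝ := fun D => if h : D ∈ B then g ⟨D, h⟩ else 0 with hcdef
  have hsum : stdMeasure P = ∑ D ∈ B, c D • stdMeasure (convexHull ℝ (D : Set (E d))) := by
    rw [← hg, ← Finset.sum_coe_sort B
      (fun D => c D • stdMeasure (convexHull ℝ (D : Set (E d))))]
    apply Finset.sum_congr rfl
    intro D _
    rw [hcdef]
    beta_reduce
    rw [dif_pos D.2]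
  have hz := hB5 P hP c hsum
  have hmem : stdMeasure P ∈ Lat (T : Set (E d)) := by
    rw [← hB4, hsum]
    apply AddSubgroup.sum_mem
    intro D hD
    obtain ⟨z, hz⟩ := hz D hD
    rw [hz]
    refine int_smul_mem ?_ _
    exact AddSubgroup.subset_closure ⟨⟨D, hD⟩, rfl⟩
  refine AddSubgroup.closure_mono ?_ hmem
  rintro _ ⟨D, hDS, hD, rfl⟩
  exact ⟨D, hDS.trans hT, hD, rfl⟩

/-- **Answer to Q1 (no).** (1) If the standard measure of a generalized polytope `P` is in the
real span of the standard measures of the `d`-simplices with vertices in `V(P)`, then it is an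
integer combination of such measures. (2) For every finite set `S` there is a basis of the real
span, consisting of measures of simplices, which generates the lattice of all integer combinations
of measures of simplices and with respect to which the measure of every generalized polytope in
the span has integral coordinates. -/
theorem result : ∀ d : ℕ, 1 ≤ d →
    (∀ P : Set (E d), IsGenPolytope P → stdMeasure P ∈ MDelta (vertices P) →
      stdMeasure P ∈ Lat (vertices P)) ∧
    (∀ S : Finset (E d), ∃ B : Finset (Finset (E d)),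
      (∀ D ∈ B, D ⊆ S ∧ IsSimplexSet D) ∧
      LinearIndependent ℝ
        (fun D : B => stdMeasure (convexHull ℝ ((D : Finset (E d)) : Set (E d)))) ∧
      Submodule.span ℝ (Set.range
        (fun D : B => stdMeasure (convexHull ℝ ((D : Finset (E d)) : Set (E d))))) = MDelta S ∧
      AddSubgroup.closure (Set.range
        (fun D : B => stdMeasure (convexHull ℝ ((D : Finset (E d)) : Set (E d))))) = Lat S ∧
      ∀ P : Set (E d), IsGenPolytope P → ∀ c : Finset (E d) → ℝ,
        stdMeasure P = ∑ D ∈ B, c D • stdMeasure (convexHull ℝ (D : Set (E d))) →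
          ∀ D ∈ B, ∃ z : ℤ, c D = z) := by
  intro d _
  refine ⟨fun P hP h => mem_Lat_of_mem_MDelta (isCompact_of_genPolytope hP) h, fun S => ?_⟩
  obtain ⟨B, h1, h2, h3, h4, h5⟩ := basis_form S
  exact ⟨B, h1, h2, h3, h4, fun P hP => h5 P (isCompact_of_genPolytope hP)⟩

end Pool.Agent.Results.MP_8bc176_co.AlwaysIntegral
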